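import Pool.Agent.Lib.MP_c23581_co.Main

/-!
Problem MP_c23581_co: for every `d ≥ 3` there is a `d`-dimensional counterexample to Stanley's
conjecture on `k`-fold acyclic complexes (with `k = d - 1`) which embeds into `ℝ^d`.
-/

set_option autoImplicit false

namespace Pool.Agent.Results.MP_c23581_co.EmbeddedCounterexamples

open Pool.Agent.Lib.MP_c23581_co

universe u

/-- For every `d ≥ 3` there is a simplicial complex `Δ` of dimension `d` whose geometric realization
embeds into `ℝ^d`, which is `(d - 1)`-fold acyclic over every field, and whose face poset is not a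
disjoint union of Boolean intervals of rank `d - 1` whose minimal elements form a subcomplex; it is
not even a disjoint union of Boolean intervals of rank at least `d - 1`. The case `d = 3` is Q1,
the general case is Q2. -/
theorem result : ∀ d : ℕ, 3 ≤ d → ∃ (n : ℕ) (Δ : Finset (Finset (Fin n))),
    IsComplex Δ ∧ HasDim Δ d ∧ EmbedsInEuclidean d Δ ∧
    (∀ (𝕜 : Type u) [Field 𝕜], KFoldAcyclic 𝕜 (d - 1) Δ) ∧
    ¬ HasStanleyDecomposition (d - 1) Δ ∧ ¬ HasIntervalPartition (d - 1) Δ := by
  intro d hd
  obtain ⟨e, rfl⟩ := Nat.exists_eq_add_of_le' hd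
  obtain ⟨n, Δ, h1, h2, h3, h4, h5⟩ := main_ind.{u} e
  have he : e + 3 - 1 = e + 2 := by omega
  rw [he]
  exact ⟨n, Δ, h1, h2, embeds_of_homEmb h1.down h3, fun 𝕜 _ => kFoldAcyclic_of_kFoldU (h4 𝕜),
    not_hasStanleyDecomposition_of_noPart h5, h5⟩

end Pool.Agent.Results.MP_c23581_co.EmbeddedCounterexamples
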